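import Pool.Agent.H.MP_9c8b61_co.B
import Pool.Agent.H.MP_9c8b61_co.C

namespace Pool.Agent.Results.MP_9c8b61_co.Both

open Pool.Agent.H.MP_9c8b61_co Filter

theorem lemC {A : Finset Pt} {N H p b k : ℕ} (f : Fin k → MPath A)
    (hf : ∀ a ∈ A, ∀ b ∈ A, a ≠ b → ∃ j, (f j).HasEdge a b) (hb : b < p) (hp : 2 * p ≤ H)
    (hN : 4 * H ≤ N) (hA : ∀ q, InG (4 * H) q → P N (he N) q ∈ A) :
    H ^ 3 ≤ p * ∑ j, (II N H p b (f j)).card := by
  classical
  let E : Finset ((ℤ × ℤ) × ℤ) := (Finset.Ico (0 : ℤ) H ×ˢ Finset.Ico (0 : ℤ) H) ×ˢ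
    Finset.Ico ((H / p + 1 : ℕ) : ℤ) (2 * ((H / p + 1 : ℕ) : ℤ))
  have hE : ∀ e ∈ E, Sp H p e := by
    intro e he'
    simp only [E, Finset.mem_product, Finset.mem_Ico] at he'
    exact ⟨⟨he'.1.1.1, he'.1.1.2, he'.1.2.1, he'.1.2.2⟩, he'.2⟩
  have hc : E.card = H * H * (H / p + 1) := by
    simp only [E, Finset.card_product, Int.card_Ico]
    generalize H / p + 1 = T
    congr 1
    omega
  have : ∀ e, ∃ j : Option (Σ _ : Fin k, ℕ), e ∈ E → ∃ i, j = some i ∧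
      i.2 ∈ II N H p b (f i.1) ∧ IsE N p b (f i.1) i.2 e := by
    intro e
    by_cases h : e ∈ E
    swap
    · exact ⟨none, fun h' => absurd h' h⟩
    obtain ⟨g1, g2, g3, g4, -⟩ := (hE e h).bd hb hp (le_refl (4 * H))
    obtain ⟨g1', g2', -⟩ := (hE e h).bd hb hp hN
    obtain ⟨j, i, hi, h'⟩ := hf _ (hA _ g1) _ (hA _ g2) (fun e' => by
      have := P_inj (he_small N) g1' g2' e'
      rw [← this] at g4
      omega)
    exact ⟨some ⟨j, i⟩, fun _ => ⟨_, rfl,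
      Finset.mem_filter.mpr ⟨Finset.mem_range.mpr hi, e, hE e h, h'⟩, h'⟩⟩
  choose g hg using this
  have h1 : E.card ≤ ((Finset.univ.sigma fun j => II N H p b (f j)).image some).card := by
    apply Finset.card_le_card_of_injOn g
    · intro e he'
      obtain ⟨i, e1, e2, -⟩ := hg e he'
      simp only [Finset.coe_image, Set.mem_image, Finset.mem_coe, Finset.mem_sigma]
      exact ⟨i, ⟨Finset.mem_univ _, e2⟩, e1.symm⟩
    · intro e he1 e' he2 hee
      obtain ⟨i, e1, -, e3⟩ := hg e he1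
      obtain ⟨i', e1', -, e3'⟩ := hg e' he2
      obtain rfl : i = i' := Option.some.inj (e1.symm.trans (hee.trans e1'))
      obtain ⟨g1, g2, g3, g4, -⟩ := (hE e he1).bd hb hp hN
      obtain ⟨g1', g2', g3', g4', -⟩ := (hE e' he2).bd hb hp hN
      have fin : e.1 = e'.1 → up p b e = up p b e' → e = e' := by
        intro x y
        refine Prod.ext x ?_
        have := congrArg Prod.fst y
        simp only [up, x, add_right_inj] at this
        exact mul_right_cancel₀ (by omega) this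
      rcases e3 with ⟨x, y⟩ | ⟨x, y⟩ <;> rcases e3' with ⟨x', y'⟩ | ⟨x', y'⟩
      · exact fin (P_inj (he_small N) g1 g1' (x.symm.trans x'))
          (P_inj (he_small N) g2 g2' (y.symm.trans y'))
      · have := P_inj (he_small N) g1 g2' (x.symm.trans x')
        rw [this] at g3
        omega
      · have := P_inj (he_small N) g1 g2' (y.symm.trans y')
        rw [this] at g3
        omega
      · exact fin (P_inj (he_small N) g1 g1' (y.symm.trans y'))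
          (P_inj (he_small N) g2 g2' (x.symm.trans x'))
  have h2 := h1.trans Finset.card_image_le
  rw [Finset.card_sigma, hc] at h2
  have t1 : H ≤ p * (H / p + 1) := by
    have := Nat.lt_div_mul_add (a := H) (b := p) (by omega)
    nlinarith
  calc H ^ 3 = H * H * H := by ring
    _ ≤ H * H * (p * (H / p + 1)) := Nat.mul_le_mul_left _ t1
    _ = p * (H * H * (H / p + 1)) := by ring
    _ ≤ _ := Nat.mul_le_mul_left _ h2

def DD (R : ℕ) : Finset (Σ _ : ℕ, ℕ) :=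
  ((Finset.range R).filter Nat.Prime).sigma fun p => Finset.Ioo 0 p

theorem mem_DD {R : ℕ} {v : Σ _ : ℕ, ℕ} (h : v ∈ DD R) :
    v.1 < R ∧ v.1.Prime ∧ 0 < v.2 ∧ v.2 < v.1 := by
  simpa [DD, and_assoc] using h

theorem DD_card (R : ℕ) : (DD R).card ≤ R ^ 2 := by
  rw [DD, Finset.card_sigma]
  refine (Finset.sum_le_card_nsmul _ _ R fun r hr => ?_).trans ?_
  · have := Finset.mem_range.mp (Finset.mem_filter.mp hr).1
    rw [Nat.card_Ioo]
    omega
  · rw [smul_eq_mul, sq]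
    exact Nat.mul_le_mul_right _ ((Finset.card_filter_le _ _).trans (by simp))

theorem path_bd {A : Finset Pt} {N H R : ℕ} (ξ : MPath A) (hN : 4 * H ≤ N) (hN' : N ≤ 8 * H)
    (hH : 64 * R ^ 4 ≤ H) (hA : ∀ a ∈ A, 0 ≤ a.1 ∧ a.1 ≤ N ∧ 0 ≤ a.2 ∧ a.2 ≤ N) :
    ∑ v ∈ DD R, ((II N H v.1 v.2 ξ).card : ℝ) / v.1 ≤ 13 * H := by
  classical
  obtain ⟨u, u0, hu⟩ := ξ.mono
  let bad : (Σ _ : ℕ, ℕ) → Prop := fun v => ¬ |u.1| + |u.2| ≤ 4 * R * |v.1 * u.1 + v.2 * u.2|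
  rw [← Finset.sum_filter_add_sum_filter_not (DD R) bad]
  have aux : ∀ v ∈ DD R, 2 * v.1 ≤ H ∧ 8 * R ^ 2 ≤ H := by
    intro v hv
    have := (mem_DD hv).1
    have r1 : R ≤ R ^ 2 := Nat.le_self_pow (by norm_num) R
    have r2 : R ^ 2 ≤ R ^ 4 := Nat.pow_le_pow_right (by omega) (by norm_num)
    omega
  have h1 : ∑ v ∈ (DD R).filter bad, ((II N H v.1 v.2 ξ).card : ℝ) / v.1 ≤ 12 * H := by
    refine (Finset.sum_le_card_nsmul _ _ (12 * H : ℝ) fun v hv => ?_).trans ?_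
    · have hv := (Finset.mem_filter.mp hv).1
      obtain ⟨-, a2, -, a4⟩ := mem_DD hv
      have := lemA ξ a4 (aux v hv).1 hN
      have p0 : (0 : ℝ) < v.1 := by exact_mod_cast a2.pos
      rw [div_le_iff₀ p0]
      have : ((II N H v.1 v.2 ξ).card : ℝ) ≤ 12 * v.1 * H := by exact_mod_cast this
      linarith
    · have : ((DD R).filter bad).card ≤ 1 := by
        rw [Finset.card_le_one]
        rintro ⟨p, b⟩ hv ⟨p', b'⟩ hw
        obtain ⟨hv, bv⟩ := Finset.mem_filter.mp hv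
        obtain ⟨hw, bw⟩ := Finset.mem_filter.mp hw
        obtain ⟨a1, a2, a3, a4⟩ := mem_DD hv
        obtain ⟨b1, b2, -, b4⟩ := mem_DD hw
        obtain ⟨rfl, rfl⟩ := lemD a2 b2 a3 a4 b4 a1.le b1.le u bv bw
        rfl
      have : (((DD R).filter bad).card : ℝ) ≤ 1 := by exact_mod_cast this
      rw [nsmul_eq_mul]
      have : (0 : ℝ) ≤ H := Nat.cast_nonneg H
      nlinarith
  have h2 : ∑ v ∈ (DD R).filter (fun v => ¬ bad v), ((II N H v.1 v.2 ξ).card : ℝ) / v.1 ≤ H := by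
    refine (Finset.sum_le_card_nsmul _ _ (64 * (R : ℝ) ^ 2) fun v hv => ?_).trans ?_
    · obtain ⟨hv, bv⟩ := Finset.mem_filter.mp hv
      obtain ⟨a1, a2, -, a4⟩ := mem_DD hv
      have := lemB ξ a4 (aux v hv).1 hN hN' a1.le (aux v hv).2 hA u0 hu (not_not.mp bv)
      have p0 : (1 : ℝ) ≤ v.1 := by exact_mod_cast a2.pos
      have : ((II N H v.1 v.2 ξ).card : ℝ) ≤ 64 * (R : ℝ) ^ 2 := by exact_mod_cast this
      exact (div_le_self (Nat.cast_nonneg _) p0).trans this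
    · have : (((DD R).filter (fun v => ¬ bad v)).card : ℝ) ≤ (R : ℝ) ^ 2 := by
        exact_mod_cast (Finset.card_filter_le _ _).trans (DD_card R)
      have hH' : 64 * (R : ℝ) ^ 4 ≤ H := by exact_mod_cast hH
      rw [nsmul_eq_mul]
      nlinarith [sq_nonneg (R : ℝ)]
  linarith

noncomputable def S (R : ℕ) : ℝ := ∑ p ∈ (Finset.range R).filter Nat.Prime, (1 : ℝ) / p

theorem S_top : Tendsto S atTop atTop := by
  have := (not_summable_iff_tendsto_nat_atTop_of_nonneg (fun n => by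
    apply Set.indicator_nonneg
    intro p _
    positivity)).mp not_summable_one_div_on_primes
  refine this.congr fun R => ?_
  rw [S, Finset.sum_filter]
  refine Finset.sum_congr rfl fun p _ => ?_
  rw [Set.indicator_apply]
  congr

theorem lower {A : Finset Pt} {N H R : ℕ} (hN : 4 * H ≤ N) (hN' : N ≤ 8 * H) (H0 : 0 < H)
    (hH : 64 * R ^ 4 ≤ H) (hA : ∀ a ∈ A, 0 ≤ a.1 ∧ a.1 ≤ N ∧ 0 ≤ a.2 ∧ a.2 ≤ N)
    (hA' : ∀ q, InG (4 * H) q → P N (he N) q ∈ A) : (H : ℝ) ^ 2 * S R ≤ 26 * mc A := by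
  obtain ⟨f, hf⟩ : mc A ∈ coverSizes A := Nat.sInf_mem (cover_nonempty A)
  generalize mc A = k at *
  have h1 : ∑ j, ∑ v ∈ DD R, ((II N H v.1 v.2 (f j)).card : ℝ) / v.1 ≤ k * (13 * H) := by
    refine (Finset.sum_le_card_nsmul _ _ _ fun j _ => path_bd (f j) hN hN' hH hA).trans ?_
    simp
  rw [Finset.sum_comm] at h1
  have h2 : ∑ v ∈ DD R, (H : ℝ) ^ 3 / (v.1 : ℝ) ^ 2 ≤
      ∑ v ∈ DD R, ∑ j, ((II N H v.1 v.2 (f j)).card : ℝ) / v.1 := by
    refine Finset.sum_le_sum fun v hv => ?_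
    obtain ⟨a1, a2, -, a4⟩ := mem_DD hv
    have r1 : R ≤ R ^ 4 := Nat.le_self_pow (by norm_num) R
    have := lemC f hf a4 (by omega) hN hA'
    have p0 : (0 : ℝ) < v.1 := by exact_mod_cast a2.pos
    rw [← Finset.sum_div, div_le_div_iff₀ (by positivity) p0]
    have : (H : ℝ) ^ 3 ≤ v.1 * ∑ j, ((II N H v.1 v.2 (f j)).card : ℝ) := by exact_mod_cast this
    nlinarith
  have h3 : (H : ℝ) ^ 3 / 2 * S R ≤ ∑ v ∈ DD R, (H : ℝ) ^ 3 / (v.1 : ℝ) ^ 2 := by
    rw [DD, Finset.sum_sigma, S, Finset.mul_sum]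
    refine Finset.sum_le_sum fun p hp => ?_
    have a2 := (Finset.mem_filter.mp hp).2.two_le
    have p0 : (2 : ℝ) ≤ p := by exact_mod_cast a2
    simp only [Finset.sum_const, Nat.card_Ioo, nsmul_eq_mul]
    have e : ((p - 0 - 1 : ℕ) : ℝ) = p - 1 := by
      rw [Nat.sub_zero, Nat.cast_pred (by omega)]
    rw [e, ← mul_div_assoc, ← mul_div_assoc, div_le_div_iff₀ (by positivity) (by positivity)]
    have : (0 : ℝ) ≤ (H : ℝ) ^ 3 * p * (p - 2) :=
      mul_nonneg (by positivity) (by linarith)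
    nlinarith
  have H0' : (0 : ℝ) < H := by exact_mod_cast H0
  apply le_of_mul_le_mul_right _ H0'
  nlinarith

theorem result :
    (∃ α : ℝ, 0 < α ∧ ∃ A : ℕ → Finset Pt,
      (∀ n, 1 ≤ n → (A n).card = n ∧ GenPos (A n) ∧ IsDense α (A n)) ∧
      Tendsto (fun n : ℕ => (mc (A n) : ℝ) / n) atTop atTop) ∧
    (∃ α : ℝ, 0 < α ∧ ∃ C : ℕ, ∀ n, 1 ≤ n →
      ∃ A : Finset Pt, A.card = n ∧ GenPos A ∧ IsDense α A ∧ mc A ≤ C * n) := by
  classical
  refine ⟨⟨8, by norm_num, ?_⟩, 8, by norm_num, 264, Q2⟩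
  have : ∀ n : ℕ, ∃ Q : Finset (ℤ × ℤ), 1 ≤ n → Q.card = n ∧
      (∀ q ∈ Q, InG (n.sqrt + 1) q) ∧ (∀ q, InG n.sqrt q → q ∈ Q) ∧
      (((n.sqrt + 1 : ℕ) : ℝ)) ^ 2 ≤ 4 * n := by
    intro n
    by_cases hn : 1 ≤ n
    · obtain ⟨Q, h⟩ := grid n hn
      exact ⟨Q, fun _ => h⟩
    · exact ⟨∅, fun h => absurd h hn⟩
  choose Q hQ using this
  refine ⟨fun n => (Q n).image (P (n.sqrt + 1) (he (n.sqrt + 1))), fun n hn => ?_, ?_⟩
  · obtain ⟨h1, h2, -, h4⟩ := hQ n hn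
    obtain ⟨g1, g2, g3⟩ := good (he_small _) (Q n) h2 (by rw [h1]; exact h4) (he_gen _)
    exact ⟨g1.trans h1, g2, g3⟩
  · rw [tendsto_atTop]
    intro C
    obtain ⟨R, hR⟩ := (tendsto_atTop.mp S_top (1664 * C)).exists
    filter_upwards [eventually_ge_atTop ((4 * (64 * R ^ 4 + 1)) ^ 2)] with n hn
    have m1 : 4 * (64 * R ^ 4 + 1) ≤ n.sqrt := Nat.le_sqrt'.mpr hn
    have m2 := Nat.sqrt_le n
    have n1 : 1 ≤ n := by
      by_contra h
      have : n = 0 := by omega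
      subst this
      simp at m1
    obtain ⟨-, h2, h3, -⟩ := hQ n n1
    have := lower (A := (Q n).image (P (n.sqrt + 1) (he (n.sqrt + 1)))) (N := n.sqrt + 1)
      (H := n.sqrt / 4) (R := R) (by omega) (by omega) (by omega) (by omega) (fun a ha => by
        obtain ⟨q, hq, rfl⟩ := Finset.mem_image.mp ha
        exact P_box (he_small _) (h2 q hq)) (fun q hq => Finset.mem_image_of_mem _ (h3 q (by
          obtain ⟨a, b, c, d⟩ := hq
          exact ⟨a, by omega, c, by omega⟩)))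
    have n0 : (0 : ℝ) < n := by exact_mod_cast n1
    have m3 : n ≤ 64 * (n.sqrt / 4) ^ 2 := by
      have a1 := Nat.lt_succ_sqrt n
      have a2 : n.sqrt + 1 ≤ 8 * (n.sqrt / 4) := by omega
      nlinarith
    have m4 : (n : ℝ) ≤ 64 * ((n.sqrt / 4 : ℕ) : ℝ) ^ 2 := by exact_mod_cast m3
    rw [le_div_iff₀ n0]
    have s0 : 0 ≤ S R := Finset.sum_nonneg fun p _ => by positivity
    nlinarith

end Pool.Agent.Results.MP_9c8b61_co.Both
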